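import Pool.Agent.H7.FD.PairMain
import Pool.Agent.H88.WY.VdC
import Pool.Agent.H25.FD.PRH

/-!
MP_1f2761, k = 2: the pair lemma without hypotheses, and row PRH.
-/

set_option autoImplicit false

open Finset Pool.K2

namespace Pool.Agent.H7.FD

theorem vdcStmt : VdcStmt := Pool.Agent.H88.WY.vdc

theorem pairU : Pool.FD.Prh25.PairUStmt := by
  intro th1 th2 h1 h2 i1 i2 i12
  obtain ⟨C, _, hC⟩ := pair vdcStmt th1 th2 h1 h2 i1 i2 i12
  refine ⟨C, fun w hw A B eps heps => ?_⟩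
  obtain ⟨T0, hT0⟩ := hC w hw A B eps heps
  exact ⟨T0, fun T hT be1 be2 => hT0 T hT be1 be2⟩

theorem prh : Pool.FD.PRHStmt := Pool.FD.prh_row pairU

end Pool.Agent.H7.FD
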