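import Mathlib

/-!
MP_1f2761, k = 2: the CLAIM of section (8.6) of P2761_est84.md (small vectors of the group generated by
`(th1, th2)` and `Z^2` in a good direction).
-/

namespace Pool.Agent.H7.FD

/-- simultaneous approximation by the pigeonhole principle -/
theorem dirichlet2 (θ1 θ2 : ℝ) {ε : ℝ} (hε : 0 < ε) :
    ∃ K : ℕ, 0 < K ∧ ∃ I1 I2 : ℤ, |K * θ1 - I1| < ε ∧ |K * θ2 - I2| < ε := by
  obtain ⟨N, hN⟩ := exists_nat_gt (1 / ε)
  have hN0 : (0 : ℝ) < N := lt_trans (by positivity) hN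
  have hNpos : 0 < N := by exact_mod_cast hN0
  have h1N : 1 / (N : ℝ) < ε := by
    rw [div_lt_iff₀ hN0]
    rw [div_lt_iff₀ hε] at hN
    linarith
  let f : ℕ → ℕ × ℕ := fun j => (⌊(N : ℝ) * Int.fract (j * θ1)⌋₊, ⌊(N : ℝ) * Int.fract (j * θ2)⌋₊)
  have hf : ∀ j ∈ Finset.range (N * N + 1), f j ∈ Finset.range N ×ˢ Finset.range N := by
    intro j _
    simp only [f, Finset.mem_product, Finset.mem_range]
    constructor
    · rw [Nat.floor_lt (by positivity)]
      have := Int.fract_lt_one (j * θ1)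
      nlinarith
    · rw [Nat.floor_lt (by positivity)]
      have := Int.fract_lt_one (j * θ2)
      nlinarith
  have hcard : (Finset.range N ×ˢ Finset.range N).card < (Finset.range (N * N + 1)).card := by
    simp
  obtain ⟨i, hi, j, hj, hij, hfij⟩ := Finset.exists_ne_map_eq_of_card_lt_of_maps_to hcard hf
  have key : ∀ (i j : ℕ), i < j → f i = f j →
      ∃ K : ℕ, 0 < K ∧ ∃ I1 I2 : ℤ, |K * θ1 - I1| < ε ∧ |K * θ2 - I2| < ε := by
    intro i j hlt hfij
    have hfl : ∀ θ : ℝ, ⌊(N : ℝ) * Int.fract (i * θ)⌋₊ = ⌊(N : ℝ) * Int.fract (j * θ)⌋₊ →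
        |((j - i : ℕ) : ℝ) * θ - ((⌊(j : ℝ) * θ⌋ - ⌊(i : ℝ) * θ⌋ : ℤ) : ℝ)| < ε := by
      intro θ h
      have hx0 : 0 ≤ (N : ℝ) * Int.fract (i * θ) := mul_nonneg hN0.le (Int.fract_nonneg _)
      have hy0 : 0 ≤ (N : ℝ) * Int.fract (j * θ) := mul_nonneg hN0.le (Int.fract_nonneg _)
      have hx1 := Nat.floor_le hx0
      have hy1 := Nat.floor_le hy0
      have hx2 := Nat.lt_floor_add_one ((N : ℝ) * Int.fract (i * θ))
      have hy2 := Nat.lt_floor_add_one ((N : ℝ) * Int.fract (j * θ))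
      rw [h] at hx1 hx2
      have habs : |(N : ℝ) * Int.fract (j * θ) - (N : ℝ) * Int.fract (i * θ)| < 1 := by
        rw [abs_lt]; constructor <;> linarith
      have hcast : ((j - i : ℕ) : ℝ) = (j : ℝ) - i := by
        rw [Nat.cast_sub hlt.le]
      have heq : ((j - i : ℕ) : ℝ) * θ - ((⌊(j : ℝ) * θ⌋ - ⌊(i : ℝ) * θ⌋ : ℤ) : ℝ)
          = Int.fract (j * θ) - Int.fract (i * θ) := by
        rw [hcast]
        push_cast
        rw [Int.fract, Int.fract]
        ring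
      rw [heq]
      have : |Int.fract ((j : ℝ) * θ) - Int.fract ((i : ℝ) * θ)| < 1 / N := by
        rw [lt_div_iff₀ hN0]
        rw [← mul_sub, abs_mul, abs_of_pos hN0] at habs
        linarith
      linarith
    refine ⟨j - i, Nat.sub_pos_of_lt hlt, ⌊(j : ℝ) * θ1⌋ - ⌊(i : ℝ) * θ1⌋,
      ⌊(j : ℝ) * θ2⌋ - ⌊(i : ℝ) * θ2⌋, ?_, ?_⟩
    · exact hfl θ1 (congrArg Prod.fst hfij)
    · exact hfl θ2 (congrArg Prod.snd hfij)
  rcases lt_or_gt_of_ne hij with h | h
  · exact key i j h hfij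
  · exact key j i h hfij.symm

theorem mul_sub_ne_zero {θ : ℝ} (h : Irrational θ) {K : ℕ} (hK : 0 < K) (I : ℤ) :
    (K : ℝ) * θ - I ≠ 0 := by
  intro h0
  apply h
  refine ⟨(I : ℚ) / K, ?_⟩
  have hK' : (K : ℝ) ≠ 0 := by exact_mod_cast hK.ne'
  push_cast
  rw [div_eq_iff hK']
  linarith

/-- the CLAIM: arbitrarily small vectors in a good direction -/
theorem claim (θ1 θ2 μ1 μ2 : ℝ) (h1 : Irrational θ1) (h2 : Irrational θ2) (hμ1 : 0 < μ1) (hμ2 : 0 < μ2)
    (hirr : Irrational (μ1 / μ2)) :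
    ∃ c : ℝ, 0 < c ∧ ∀ ε : ℝ, 0 < ε → ∃ K : ℕ, 0 < K ∧ ∃ I1 I2 : ℤ, ∃ m : ℝ, 0 < m ∧ m < ε ∧
      |K * θ1 - I1| ≤ m ∧ |K * θ2 - I2| ≤ m ∧ c * m ≤ |K * θ1 - I1| ∧ c * m ≤ |K * θ2 - I2| ∧
      c * m ≤ |μ1 * (K * θ1 - I1) - μ2 * (K * θ2 - I2)| := by
  by_cases hA : ∀ ε : ℝ, 0 < ε → ∃ J I1 I2 J' I1' I2' : ℤ,
      |J * θ1 - I1| < ε ∧ |J * θ2 - I2| < ε ∧ |J' * θ1 - I1'| < ε ∧ |J' * θ2 - I2'| < ε ∧
      (J * θ1 - I1) * (J' * θ2 - I2') - (J' * θ1 - I1') * (J * θ2 - I2) ≠ 0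
  · -- two independent directions
    refine ⟨min (1 / 3) ((μ1 + μ2) / 3), by positivity, ?_⟩
    intro ε hε
    set s : ℝ := min ε 1 / 2 with hs
    have hs0 : 0 < s := by rw [hs]; positivity
    have hsε : 2 * s ≤ ε := by rw [hs]; linarith [min_le_left ε 1]
    have hs1 : 2 * s ≤ 1 := by rw [hs]; linarith [min_le_right ε 1]
    obtain ⟨J, I1, I2, J', I1', I2', ha, hb, ha', hb', hD⟩ := hA (s / 2) (by positivity)
    set a := (J : ℝ) * θ1 - I1 with hadef
    set b := (J : ℝ) * θ2 - I2 with hbdef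
    set a' := (J' : ℝ) * θ1 - I1' with ha'def
    set b' := (J' : ℝ) * θ2 - I2' with hb'def
    set D := a * b' - a' * b with hDdef
    set α := s * (b' + a') / D with hα
    set β := -(s * (a + b)) / D with hβ
    have e1 : α * a + β * a' = s := by
      rw [hα, hβ]; field_simp; rw [hDdef]; ring
    have e2 : α * b + β * b' = -s := by
      rw [hα, hβ]; field_simp; rw [hDdef]; ring
    have rα := abs_sub_round α
    have rβ := abs_sub_round β
    set A : ℤ := round α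
    set B : ℤ := round β
    set J0 : ℤ := A * J + B * J' with hJ0
    set L1 : ℤ := A * I1 + B * I1' with hL1
    set L2 : ℤ := A * I2 + B * I2' with hL2
    set v1 : ℝ := (J0 : ℝ) * θ1 - L1 with hv1
    set v2 : ℝ := (J0 : ℝ) * θ2 - L2 with hv2
    have w1 : v1 = A * a + B * a' := by
      rw [hv1, hJ0, hL1, hadef, ha'def]; push_cast; ring
    have w2 : v2 = A * b + B * b' := by
      rw [hv2, hJ0, hL2, hbdef, hb'def]; push_cast; ring
    have d1 : |s - v1| ≤ s / 2 := by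
      have : s - v1 = (α - A) * a + (β - B) * a' := by rw [w1]; linarith
      rw [this]
      calc |(α - A) * a + (β - B) * a'| ≤ |(α - A) * a| + |(β - B) * a'| := abs_add_le _ _
        _ = |α - A| * |a| + |β - B| * |a'| := by rw [abs_mul, abs_mul]
        _ ≤ 1 / 2 * (s / 2) + 1 / 2 * (s / 2) := by
            gcongr
        _ = s / 2 := by ring
    have d2 : |-s - v2| ≤ s / 2 := by
      have : -s - v2 = (α - A) * b + (β - B) * b' := by rw [w2]; linarith
      rw [this]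
      calc |(α - A) * b + (β - B) * b'| ≤ |(α - A) * b| + |(β - B) * b'| := abs_add_le _ _
        _ = |α - A| * |b| + |β - B| * |b'| := by rw [abs_mul, abs_mul]
        _ ≤ 1 / 2 * (s / 2) + 1 / 2 * (s / 2) := by
            gcongr
        _ = s / 2 := by ring
    rw [abs_le] at d1 d2
    have hJ0ne : J0 ≠ 0 := by
      intro h0
      have hv : v1 = -(L1 : ℝ) := by rw [hv1, h0]; push_cast; ring
      have p1 : 0 < -(L1 : ℝ) := by rw [← hv]; linarith
      have p2 : -(L1 : ℝ) < 1 := by rw [← hv]; linarith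
      have q1 : (0 : ℤ) < -L1 := by exact_mod_cast p1
      have q2 : -L1 < (1 : ℤ) := by exact_mod_cast p2
      omega
    have hm3 : ∀ x : ℝ, 0 ≤ x → min (1 / 3) ((μ1 + μ2) / 3) * (3 * s / 2) ≤ 1 / 3 * (3 * s / 2) ∧
        min (1 / 3) ((μ1 + μ2) / 3) * (3 * s / 2) ≤ (μ1 + μ2) / 3 * (3 * s / 2) := by
      intro x _
      constructor
      · exact mul_le_mul_of_nonneg_right (min_le_left _ _) (by positivity)
      · exact mul_le_mul_of_nonneg_right (min_le_right _ _) (by positivity)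
    obtain ⟨c1, c2⟩ := hm3 0 le_rfl
    have hlam : (μ1 + μ2) / 3 * (3 * s / 2) ≤ μ1 * v1 - μ2 * v2 := by
      nlinarith [mul_le_mul_of_nonneg_left (show s / 2 ≤ v1 by linarith) hμ1.le,
        mul_le_mul_of_nonneg_left (show s / 2 ≤ -v2 by linarith) hμ2.le]
    rcases lt_or_gt_of_ne hJ0ne with hneg | hpos
    · refine ⟨(-J0).toNat, by omega, -L1, -L2, 3 * s / 2, by positivity, by linarith, ?_⟩
      have hc : (((-J0).toNat : ℕ) : ℝ) = -(J0 : ℝ) := by
        have : (((-J0).toNat : ℕ) : ℤ) = -J0 := Int.toNat_of_nonneg (by omega)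
        exact_mod_cast this
      have x1 : (((-J0).toNat : ℕ) : ℝ) * θ1 - ((-L1 : ℤ) : ℝ) = -v1 := by
        rw [hc, hv1]; push_cast; ring
      have x2 : (((-J0).toNat : ℕ) : ℝ) * θ2 - ((-L2 : ℤ) : ℝ) = -v2 := by
        rw [hc, hv2]; push_cast; ring
      rw [x1, x2]
      refine ⟨?_, ?_, ?_, ?_, ?_⟩
      · rw [abs_neg, abs_of_pos (by linarith)]; linarith
      · rw [abs_of_pos (by linarith)]; linarith
      · rw [abs_neg, abs_of_pos (by linarith)]; linarith
      · rw [abs_of_pos (by linarith)]; linarith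
      · rw [show μ1 * -v1 - μ2 * -v2 = -(μ1 * v1 - μ2 * v2) by ring, abs_neg]
        exact le_trans c2 (le_trans hlam (le_abs_self _))
    · refine ⟨J0.toNat, by omega, L1, L2, 3 * s / 2, by positivity, by linarith, ?_⟩
      have hc : ((J0.toNat : ℕ) : ℝ) = (J0 : ℝ) := by
        have : ((J0.toNat : ℕ) : ℤ) = J0 := Int.toNat_of_nonneg (by omega)
        exact_mod_cast this
      rw [hc, ← hv1, ← hv2]
      refine ⟨?_, ?_, ?_, ?_, ?_⟩
      · rw [abs_of_pos (by linarith)]; linarith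
      · rw [abs_of_neg (by linarith)]; linarith
      · rw [abs_of_pos (by linarith)]; linarith
      · rw [abs_of_neg (by linarith)]; linarith
      · exact le_trans c2 (le_trans hlam (le_abs_self _))
  · -- all small vectors are parallel
    push Not at hA
    obtain ⟨ε0, hε0, hpar⟩ := hA
    obtain ⟨K0, hK0, I10, I20, ha0, hb0⟩ := dirichlet2 θ1 θ2 hε0
    set a0 := (K0 : ℝ) * θ1 - I10 with ha0def
    set b0 := (K0 : ℝ) * θ2 - I20 with hb0def
    have ha0ne : a0 ≠ 0 := mul_sub_ne_zero h1 hK0 _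
    have hb0ne : b0 ≠ 0 := mul_sub_ne_zero h2 hK0 _
    set ρ := b0 / a0 with hρ
    have hρne : ρ ≠ 0 := div_ne_zero hb0ne ha0ne
    have hpar' : ∀ (K : ℕ) (I1 I2 : ℤ), |(K : ℝ) * θ1 - I1| < ε0 → |(K : ℝ) * θ2 - I2| < ε0 →
        (K : ℝ) * θ2 - I2 = ρ * ((K : ℝ) * θ1 - I1) := by
      intro K I1 I2 hx hy
      have := hpar K I1 I2 K0 I10 I20 (by exact_mod_cast hx) (by exact_mod_cast hy)
        (by exact_mod_cast ha0) (by exact_mod_cast hb0)
      push_cast at this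
      rw [← ha0def, ← hb0def] at this
      rw [hρ, div_mul_eq_mul_div, eq_div_iff ha0ne]
      linarith
    have hrat : ¬ Irrational ρ := by
      have hK0' : (0 : ℝ) < K0 := by exact_mod_cast hK0
      obtain ⟨K, hK, I1, I2, ha, hb⟩ := dirichlet2 θ1 θ2
        (show 0 < min ε0 (|a0| / K0) from lt_min hε0 (by positivity))
      have hb' := hpar' K I1 I2 (lt_of_lt_of_le ha (min_le_left _ _)) (lt_of_lt_of_le hb (min_le_left _ _))
      have ha'' : |(K : ℝ) * θ1 - I1| < |a0| / K0 := lt_of_lt_of_le ha (min_le_right _ _)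
      rw [lt_div_iff₀ hK0'] at ha''
      -- n2 = K0 a - K a0
      have hn2 : ((K * I10 - K0 * I1 : ℤ) : ℝ) = K0 * ((K : ℝ) * θ1 - I1) - K * a0 := by
        rw [ha0def]; push_cast; ring
      have hn1 : ((K0 * I2 - K * I20 : ℤ) : ℝ) = K * b0 - K0 * ((K : ℝ) * θ2 - I2) := by
        rw [hb0def]; push_cast; ring
      have hn2ne : ((K * I10 - K0 * I1 : ℤ) : ℝ) ≠ 0 := by
        rw [hn2]
        intro h0
        have hK1 : (1 : ℝ) ≤ K := by exact_mod_cast hK
        have e : K0 * ((K : ℝ) * θ1 - I1) = K * a0 := by linarith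
        have e' : K0 * |(K : ℝ) * θ1 - I1| = K * |a0| := by
          have e2 := congrArg abs e
          rwa [abs_mul, abs_mul, Nat.abs_cast, Nat.abs_cast] at e2
        have : (0 : ℝ) < |a0| := abs_pos.mpr ha0ne
        nlinarith
      have hb0' : b0 = ρ * a0 := by rw [hρ, div_mul_cancel₀ _ ha0ne]
      have hrel : ρ * ((K * I10 - K0 * I1 : ℤ) : ℝ) = -((K0 * I2 - K * I20 : ℤ) : ℝ) := by
        rw [hn2, hn1, hb', hb0']; ring
      intro hirrρ
      apply hirrρ
      refine ⟨(-(K0 * I2 - K * I20 : ℤ) : ℚ) / ((K * I10 - K0 * I1 : ℤ) : ℚ), ?_⟩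
      rw [Rat.cast_div, Rat.cast_neg, Rat.cast_intCast, Rat.cast_intCast, div_eq_iff hn2ne]
      exact hrel.symm
    have hne : μ1 - μ2 * ρ ≠ 0 := by
      intro h0
      apply hrat
      have : ρ = μ1 / μ2 := by rw [eq_div_iff hμ2.ne']; linarith
      rw [this]; exact hirr
    set R : ℝ := max 1 |ρ| with hR
    have hR1 : 1 ≤ R := le_max_left _ _
    have hR2 : |ρ| ≤ R := le_max_right _ _
    have hR0 : 0 < R := lt_of_lt_of_le one_pos hR1
    have hρ0 : 0 < |ρ| := abs_pos.mpr hρne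
    have hne0 : 0 < |μ1 - μ2 * ρ| := abs_pos.mpr hne
    refine ⟨min (1 / R) (min (|ρ| / R) (|μ1 - μ2 * ρ| / R)), by positivity, ?_⟩
    intro ε hε
    obtain ⟨K, hK, I1, I2, ha, hb⟩ := dirichlet2 θ1 θ2
      (show 0 < min ε0 (ε / R) from lt_min hε0 (by positivity))
    have hb' := hpar' K I1 I2 (lt_of_lt_of_le ha (min_le_left _ _)) (lt_of_lt_of_le hb (min_le_left _ _))
    have hane : (K : ℝ) * θ1 - I1 ≠ 0 := mul_sub_ne_zero h1 hK _
    set a := (K : ℝ) * θ1 - I1 with hadef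
    have hapos : 0 < |a| := abs_pos.mpr hane
    have haε : |a| < ε / R := lt_of_lt_of_le ha (min_le_right _ _)
    rw [lt_div_iff₀ hR0] at haε
    refine ⟨K, hK, I1, I2, |a| * R, by positivity, haε, ?_, ?_, ?_, ?_, ?_⟩
    · nlinarith
    · rw [hb', abs_mul]; nlinarith
    · calc min (1 / R) (min (|ρ| / R) (|μ1 - μ2 * ρ| / R)) * (|a| * R) ≤ 1 / R * (|a| * R) := by
            gcongr; exact min_le_left _ _
        _ = |a| := by field_simp
    · rw [hb', abs_mul]
      calc min (1 / R) (min (|ρ| / R) (|μ1 - μ2 * ρ| / R)) * (|a| * R) ≤ |ρ| / R * (|a| * R) := by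
            gcongr; exact le_trans (min_le_right _ _) (min_le_left _ _)
        _ = |ρ| * |a| := by field_simp
    · rw [hb', show μ1 * a - μ2 * (ρ * a) = (μ1 - μ2 * ρ) * a by ring, abs_mul]
      calc min (1 / R) (min (|ρ| / R) (|μ1 - μ2 * ρ| / R)) * (|a| * R)
          ≤ |μ1 - μ2 * ρ| / R * (|a| * R) := by
            gcongr; exact le_trans (min_le_right _ _) (min_le_right _ _)
        _ = |μ1 - μ2 * ρ| * |a| := by field_simp

end Pool.Agent.H7.FD
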