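import Pool.Agent.H7.FD.Claim
import Pool.Agent.H42.K2.Defs
import Pool.Agent.H24.FD.Defs

/-!
MP_1f2761, k = 2: the pair lemma, section (8.6) of P2761_est84.md.
-/

set_option autoImplicit false

open Finset MeasureTheory Pool.K2

namespace Pool.Agent.H7.FD

/-- the van der Corput bound for two exponentials -/
def VdcStmt : Prop := ∀ c : ℝ, 0 < c → ∃ C : ℝ, ∀ a b A B u v : ℝ,
  c ≤ |a| → |a| ≤ 1 / c → c ≤ |b| → |b| ≤ 1 / c → c ≤ |a - b| →
  0 ≤ u → u ≤ v → v ≤ 1 → 1 ≤ max |A| |B| →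
  ‖∫ t in u..v, Complex.exp (2 * Real.pi * Complex.I *
      ((A * Real.exp (a * t) + B * Real.exp (b * t) : ℝ) : ℂ))‖ ≤
    C * (max |A| |B|) ^ (-(1 / 2) : ℝ)

/-- the scale function of rate `μ` -/
noncomputable def ys (μ x : ℝ) : ℝ := Real.exp (-μ * (⌈x⌉ - x))

theorem norm_ex (x : ℝ) : ‖ex x‖ = 1 := by
  unfold ex
  have : (2 * Real.pi * x * Complex.I : ℂ) = ((2 * Real.pi * x : ℝ) : ℂ) * Complex.I := by
    push_cast; ring
  rw [this, Complex.norm_exp_ofReal_mul_I]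

theorem shift_sum (F : ℕ → ℂ) (hF : ∀ j, ‖F j‖ ≤ 1) (T s : ℕ) :
    ‖∑ j ∈ range T, F j - ∑ j ∈ range T, F (j + s)‖ ≤ 2 * s := by
  induction s with
  | zero => simp
  | succ s ih =>
    have h1 : ∑ j ∈ range T, F (j + s) - ∑ j ∈ range T, F (j + (s + 1)) = F s - F (T + s) := by
      rw [← Finset.sum_sub_distrib]
      have := Finset.sum_range_sub' (fun j => F (j + s)) T
      simp only [zero_add] at this
      rw [← this]
      refine Finset.sum_congr rfl fun j _ => ?_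
      rw [show j + (s + 1) = j + 1 + s by ring]
    have h2 : ∑ j ∈ range T, F j - ∑ j ∈ range T, F (j + (s + 1)) =
        (∑ j ∈ range T, F j - ∑ j ∈ range T, F (j + s)) + (F s - F (T + s)) := by
      rw [← h1]; ring
    rw [h2]
    calc _ ≤ ‖∑ j ∈ range T, F j - ∑ j ∈ range T, F (j + s)‖ + ‖F s - F (T + s)‖ := norm_add_le _ _
      _ ≤ 2 * s + (1 + 1) :=
        add_le_add ih ((norm_sub_le _ _).trans (add_le_add (hF _) (hF _)))
      _ = _ := by push_cast; ring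

/-- averaging over shifts -/
theorem avg_shift (F : ℕ → ℂ) (hF : ∀ j, ‖F j‖ ≤ 1) (T K M : ℕ) (hM : 0 < M) {D : ℝ}
    (hD : ∀ j, ‖∑ i ∈ range M, F (j + i * K)‖ ≤ D) :
    ‖∑ j ∈ range T, F j‖ ≤ D / M * T + 2 * (M * K) := by
  have hM' : (0 : ℝ) < M := by exact_mod_cast hM
  have h1 : (M : ℂ) * ∑ j ∈ range T, F j =
      ∑ i ∈ range M, (∑ j ∈ range T, F j - ∑ j ∈ range T, F (j + i * K)) +
        ∑ j ∈ range T, ∑ i ∈ range M, F (j + i * K) := by
    rw [Finset.sum_sub_distrib, Finset.sum_comm (s := range T)]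
    simp
  have h2 : (M : ℝ) * ‖∑ j ∈ range T, F j‖ ≤ M * (2 * (M * K)) + T * D := by
    have h3 : (M : ℝ) * ‖∑ j ∈ range T, F j‖ = ‖(M : ℂ) * ∑ j ∈ range T, F j‖ := by
      rw [norm_mul]; simp
    rw [h3, h1]
    refine (norm_add_le _ _).trans (add_le_add ?_ ?_)
    · refine (norm_sum_le _ _).trans ?_
      refine (Finset.sum_le_card_nsmul _ _ (2 * (M * K) : ℝ) ?_).trans (by simp)
      intro i hi
      refine (shift_sum F hF T (i * K)).trans ?_
      push_cast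
      have : (i : ℝ) ≤ M := by exact_mod_cast (mem_range.1 hi).le
      gcongr
    · refine (norm_sum_le _ _).trans ?_
      refine (Finset.sum_le_card_nsmul _ _ D fun j _ => hD j).trans (by simp)
  have h4 : ‖∑ j ∈ range T, F j‖ ≤ (M * (2 * (M * K)) + T * D) / M := by
    rw [le_div_iff₀ hM']; linarith
  refine h4.trans (le_of_eq ?_)
  field_simp
  ring

/-- comparison of a sum with an integral -/
theorem sum_le_integral (g : ℝ → ℂ) (hg : Continuous g) (h1 : ∀ t, ‖g t‖ ≤ 1) (u D : ℝ) (n : ℕ)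
    (hL : ∀ s ∈ Set.Icc u (u + n), ∀ t ∈ Set.Icc u (u + n), ‖g s - g t‖ ≤ D * |s - t|) (hD : 0 ≤ D) :
    ‖∑ i ∈ range (n + 1), g (u + i)‖ ≤ ‖∫ t in u..(u + n), g t‖ + (1 + n * D) := by
  have hadj := intervalIntegral.sum_integral_adjacent_intervals (f := g) (μ := volume)
    (a := fun k : ℕ => u + k) (n := n) (fun k _ => hg.intervalIntegrable _ _)
  simp only [Nat.cast_zero, add_zero] at hadj
  have h2 : ∑ i ∈ range (n + 1), g (u + i) =
      (∫ t in u..(u + n), g t) + (g (u + n) +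
        ∑ i ∈ range n, (g (u + i) - ∫ t in (u + i)..(u + (i + 1 : ℕ)), g t)) := by
    rw [Finset.sum_sub_distrib, hadj, Finset.sum_range_succ]
    ring
  rw [h2]
  refine (norm_add_le _ _).trans (add_le_add le_rfl ((norm_add_le _ _).trans (add_le_add (h1 _) ?_)))
  refine (norm_sum_le _ _).trans ((Finset.sum_le_card_nsmul _ _ D ?_).trans (by simp))
  intro i hi
  have hin : (i : ℝ) + 1 ≤ n := by exact_mod_cast (mem_range.1 hi)
  have h3 : g (u + i) - ∫ t in (u + i)..(u + (i + 1 : ℕ)), g t =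
      ∫ t in (u + i)..(u + (i + 1 : ℕ)), (g (u + i) - g t) := by
    rw [intervalIntegral.integral_sub (by simp) (hg.intervalIntegrable _ _)]
    simp
  rw [h3]
  have h4 := intervalIntegral.norm_integral_le_of_norm_le_const (a := u + i)
    (b := u + (i + 1 : ℕ)) (C := D) (f := fun t => g (u + i) - g t) ?_
  · refine h4.trans (le_of_eq ?_)
    push_cast
    rw [show u + ((i : ℝ) + 1) - (u + i) = 1 by ring]
    simp
  · intro t ht
    rw [Set.uIoc_of_le (by push_cast; linarith)] at ht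
    obtain ⟨ht1, ht2⟩ := ht
    push_cast at ht2
    have hi0 : (0 : ℝ) ≤ i := Nat.cast_nonneg i
    refine (hL (u + i) ⟨by linarith, by linarith⟩ t ⟨by linarith, by linarith⟩).trans ?_
    have : |u + i - t| ≤ 1 := by rw [abs_le]; constructor <;> linarith
    nlinarith

theorem hasDerivAt_ex (f : ℝ → ℝ) (f' t : ℝ) (hf : HasDerivAt f f' t) :
    HasDerivAt (fun t => ex (f t)) (ex (f t) * (2 * Real.pi * f' * Complex.I)) t := by
  unfold ex
  have h1 : HasDerivAt (fun t => (f t : ℂ)) (f' : ℂ) t := hf.ofReal_comp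
  have h2 : HasDerivAt (fun t => (2 * Real.pi * f t * Complex.I : ℂ)) (2 * Real.pi * f' * Complex.I) t :=
    (h1.const_mul (2 * Real.pi : ℂ)).mul_const Complex.I
  exact h2.cexp

/-- phase function -/
noncomputable def ph (A B a b t : ℝ) : ℝ := A * Real.exp (a * t) + B * Real.exp (b * t)

theorem hasDerivAt_ph (A B a b t : ℝ) :
    HasDerivAt (ph A B a b) (A * (Real.exp (a * t) * a) + B * (Real.exp (b * t) * b)) t := by
  unfold ph
  have h1 : HasDerivAt (fun t => Real.exp (a * t)) (Real.exp (a * t) * a) t := by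
    have := ((hasDerivAt_id t).const_mul a).exp
    simpa using this
  have h2 : HasDerivAt (fun t => Real.exp (b * t)) (Real.exp (b * t) * b) t := by
    have := ((hasDerivAt_id t).const_mul b).exp
    simpa using this
  exact (h1.const_mul A).add (h2.const_mul B)

theorem continuous_exph (A B a b : ℝ) : Continuous fun t => ex (ph A B a b t) := by
  unfold ex ph
  fun_prop

theorem lip_exph {A B a b D : ℝ} {u v : ℝ}
    (hD : ∀ t ∈ Set.Icc u v, 2 * Real.pi * |A * (Real.exp (a * t) * a) + B * (Real.exp (b * t) * b)| ≤ D) :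
    ∀ s ∈ Set.Icc u v, ∀ t ∈ Set.Icc u v,
      ‖ex (ph A B a b s) - ex (ph A B a b t)‖ ≤ D * |s - t| := by
  intro s hs t ht
  have := Convex.norm_image_sub_le_of_norm_hasDerivWithin_le (s := Set.Icc u v) (C := D)
    (f := fun t => ex (ph A B a b t))
    (f' := fun t => ex (ph A B a b t) *
      (2 * Real.pi * ((A * (Real.exp (a * t) * a) + B * (Real.exp (b * t) * b) : ℝ) : ℂ) * Complex.I))
    (fun x _ => (hasDerivAt_ex _ _ x (hasDerivAt_ph A B a b x)).hasDerivWithinAt) ?_ (convex_Icc u v)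
    ht hs
  · simpa [Real.norm_eq_abs] using this
  · intro x hx
    rw [norm_mul, norm_ex, one_mul]
    have h2 : ‖(2 * Real.pi * ((A * (Real.exp (a * x) * a) + B * (Real.exp (b * x) * b) : ℝ) : ℂ) *
        Complex.I : ℂ)‖ = 2 * Real.pi * |A * (Real.exp (a * x) * a) + B * (Real.exp (b * x) * b)| := by
      rw [norm_mul, norm_mul, norm_mul, Complex.norm_I, Complex.norm_real, Complex.norm_real]
      simp [Real.norm_eq_abs, abs_of_pos Real.pi_pos]
    rw [h2]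
    exact hD x hx

/-- the bound for one interval of indices -/
theorem piece {c C0 : ℝ}
    (hv : ∀ a b A B u v : ℝ, c ≤ |a| → |a| ≤ 1 / c → c ≤ |b| → |b| ≤ 1 / c → c ≤ |a - b| →
      0 ≤ u → u ≤ v → v ≤ 1 → 1 ≤ max |A| |B| →
      ‖∫ t in u..v, Complex.exp (2 * Real.pi * Complex.I *
        ((A * Real.exp (a * t) + B * Real.exp (b * t) : ℝ) : ℂ))‖ ≤
      C0 * (max |A| |B|) ^ (-(1 / 2) : ℝ))
    {A B a b m D : ℝ} {u n : ℕ} (hm : 0 < m) (hum : ((u : ℝ) + n) * m ≤ 1)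
    (ha1 : c * m ≤ |a|) (ha2 : |a| ≤ m / c) (hb1 : c * m ≤ |b|) (hb2 : |b| ≤ m / c)
    (hab : c * m ≤ |a - b|)
    (hD : ∀ t ∈ Set.Icc (u : ℝ) (u + n),
      2 * Real.pi * |A * (Real.exp (a * t) * a) + B * (Real.exp (b * t) * b)| ≤ D)
    (h1 : 1 ≤ max |A| |B|) :
    ‖∑ i ∈ range (n + 1), ex (ph A B a b (u + i))‖ ≤
      C0 * (max |A| |B|) ^ (-(1 / 2) : ℝ) / m + (1 + n * D) := by
  have hD0 : 0 ≤ D := le_trans (by positivity) (hD u ⟨le_rfl, by simp⟩)
  refine (sum_le_integral (fun t => ex (ph A B a b t)) (continuous_exph A B a b)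
    (fun t => (norm_ex _).le) u D n (lip_exph hD) hD0).trans (add_le_add ?_ le_rfl)
  have h2 : (∫ t in (u : ℝ)..(u + n), ex (ph A B a b t)) =
      (m : ℂ)⁻¹ * ∫ t in (m * u : ℝ)..(m * (u + n)), Complex.exp (2 * Real.pi * Complex.I *
        ((A * Real.exp (a / m * t) + B * Real.exp (b / m * t) : ℝ) : ℂ)) := by
    have := intervalIntegral.integral_comp_mul_left (a := (u : ℝ)) (b := (u + n : ℝ)) (fun t => Complex.exp (2 * Real.pi * Complex.I *
        ((A * Real.exp (a / m * t) + B * Real.exp (b / m * t) : ℝ) : ℂ))) hm.ne'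
    rw [Complex.real_smul, Complex.ofReal_inv] at this
    rw [← this]
    refine intervalIntegral.integral_congr fun t _ => ?_
    unfold ex ph
    have e1 : a / m * (m * t) = a * t := by field_simp
    have e2 : b / m * (m * t) = b * t := by field_simp
    simp only [e1, e2]
    ring_nf
  rw [h2, norm_mul, norm_inv, Complex.norm_real, Real.norm_eq_abs, abs_of_pos hm, inv_mul_eq_div]
  have hm' : |a / m| = |a| / m := by rw [abs_div, abs_of_pos hm]
  have hm'' : |b / m| = |b| / m := by rw [abs_div, abs_of_pos hm]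
  have hm3 : |a / m - b / m| = |a - b| / m := by rw [← sub_div, abs_div, abs_of_pos hm]
  have hn0 : (0 : ℝ) ≤ n := Nat.cast_nonneg n
  have hu0 : (0 : ℝ) ≤ u := Nat.cast_nonneg u
  gcongr
  refine hv (a / m) (b / m) A B (m * u) (m * (u + n)) ?_ ?_ ?_ ?_ ?_ (by positivity) ?_ ?_ h1
  · rw [hm', le_div_iff₀ hm]; exact ha1
  · rw [hm', div_le_iff₀ hm]; refine ha2.trans (le_of_eq ?_); ring
  · rw [hm'', le_div_iff₀ hm]; exact hb1
  · rw [hm'', div_le_iff₀ hm]; refine hb2.trans (le_of_eq ?_); ring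
  · rw [hm3, le_div_iff₀ hm]; exact hab
  · gcongr; linarith
  · rw [mul_comm]; exact hum

/-- the ceiling of an arithmetic progression of small total length takes at most two values -/
theorem ceil_split (b δ : ℝ) (M : ℕ) (h : M * |δ| ≤ 1 / 2) :
    ∃ s ≤ M, ∃ n1 n2 : ℤ, (∀ i : ℕ, i < s → ⌈b + i * δ⌉ = n1) ∧
      (∀ i : ℕ, s ≤ i → i < M → ⌈b + i * δ⌉ = n2) := by
  classical
  have hex : ∃ s : ℕ, s = M ∨ ⌈b + s * δ⌉ ≠ ⌈b⌉ := ⟨M, Or.inl rfl⟩
  have hs := Nat.find_spec hex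
  have hmin := fun i (hi : i < Nat.find hex) => Nat.find_min hex hi
  have hsM : Nat.find hex ≤ M := Nat.find_min' hex (Or.inl rfl)
  set s := Nat.find hex with hsdef
  have hA : ∀ i : ℕ, i < s → ⌈b + i * δ⌉ = ⌈b⌉ := by
    intro i hi
    have := hmin i hi
    push Not at this
    exact this.2
  have hsmall : ∀ i : ℕ, i < M → |i * δ| ≤ 1 / 2 := by
    intro i hi
    rw [abs_mul, Nat.abs_cast]
    have : (i : ℝ) ≤ M := by exact_mod_cast hi.le
    have h0 := abs_nonneg δ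
    nlinarith
  rcases hs with hs | hs
  · exact ⟨s, hsM, ⌈b⌉, 0, hA, fun i h1 h2 => by omega⟩
  · rcases le_or_gt 0 δ with hδ | hδ
    · refine ⟨s, hsM, ⌈b⌉, ⌈b⌉ + 1, hA, fun i h1 h2 => ?_⟩
      have h3 : ⌈b + s * δ⌉ ≤ ⌈b + i * δ⌉ := by
        apply Int.ceil_mono
        have : (s : ℝ) ≤ i := by exact_mod_cast h1
        nlinarith
      have h4 : ⌈b⌉ ≤ ⌈b + s * δ⌉ := by
        apply Int.ceil_mono
        have : (0 : ℝ) ≤ s * δ := by positivity
        linarith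
      have h5 : ⌈b + i * δ⌉ ≤ ⌈b⌉ + 1 := by
        rw [Int.ceil_le]
        push_cast
        have := (abs_le.1 (hsmall i h2)).2
        have := Int.le_ceil b
        linarith
      have h6 : ⌈b⌉ < ⌈b + s * δ⌉ := lt_of_le_of_ne h4 (Ne.symm hs)
      omega
    · refine ⟨s, hsM, ⌈b⌉, ⌈b⌉ - 1, hA, fun i h1 h2 => ?_⟩
      have h3 : ⌈b + i * δ⌉ ≤ ⌈b + s * δ⌉ := by
        apply Int.ceil_mono
        have : (s : ℝ) ≤ i := by exact_mod_cast h1
        nlinarith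
      have h4 : ⌈b + s * δ⌉ ≤ ⌈b⌉ := by
        apply Int.ceil_mono
        have : (s : ℝ) * δ ≤ 0 := mul_nonpos_of_nonneg_of_nonpos (Nat.cast_nonneg s) hδ.le
        linarith
      have h5 : ⌈b⌉ - 1 ≤ ⌈b + i * δ⌉ := by
        have h7 : ((⌈b⌉ - 2 : ℤ) : ℝ) < b + i * δ := by
          push_cast
          have := (abs_le.1 (hsmall i h2)).1
          have := Int.ceil_lt_add_one b
          linarith
        have := Int.lt_ceil.2 h7
        omega
      have h6 : ⌈b + s * δ⌉ < ⌈b⌉ := lt_of_le_of_ne h4 hs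
      omega

/-- the bound for one interval of indices on which both ceilings are constant -/
theorem piece2 {c C0 : ℝ} (hC0 : 0 ≤ C0)
    (hv : ∀ a b A B u v : ℝ, c ≤ |a| → |a| ≤ 1 / c → c ≤ |b| → |b| ≤ 1 / c → c ≤ |a - b| →
      0 ≤ u → u ≤ v → v ≤ 1 → 1 ≤ max |A| |B| →
      ‖∫ t in u..v, Complex.exp (2 * Real.pi * Complex.I *
        ((A * Real.exp (a * t) + B * Real.exp (b * t) : ℝ) : ℂ))‖ ≤
      C0 * (max |A| |B|) ^ (-(1 / 2) : ℝ))
    {μ1 μ2 : ℝ} (hμ1 : 0 < μ1) (hμ2 : 0 < μ2) {A B δ1 δ2 m : ℝ} {M : ℕ} (hm : 0 < m)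
    (hMm : M * m ≤ 1 / 2) (hδ1 : |δ1| ≤ m) (hδ2 : |δ2| ≤ m)
    (ha1 : c * m ≤ |μ1 * δ1|) (ha2 : |μ1 * δ1| ≤ m / c) (hb1 : c * m ≤ |μ2 * δ2|)
    (hb2 : |μ2 * δ2| ≤ m / c) (hab : c * m ≤ |μ1 * δ1 - μ2 * δ2|)
    (hX : 1 ≤ Real.exp (-(2 * (μ1 + μ2))) * max |A| |B|) (b1 b2 : ℝ) (n1 n2 : ℤ) (u v : ℕ)
    (huv : u ≤ v) (hvM : v ≤ M)
    (hn1 : ∀ i : ℕ, u ≤ i → i < v → ⌈b1 + i * δ1⌉ = n1)
    (hn2 : ∀ i : ℕ, u ≤ i → i < v → ⌈b2 + i * δ2⌉ = n2) :
    ‖∑ i ∈ Ico u v, ex (A * ys μ1 (b1 + i * δ1) + B * ys μ2 (b2 + i * δ2))‖ ≤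
      C0 * (Real.exp (-(2 * (μ1 + μ2))) * max |A| |B|) ^ (-(1 / 2) : ℝ) / m +
        (1 + M * (2 * Real.pi * (|A| * μ1 * Real.exp μ1 + |B| * μ2 * Real.exp μ2) * m)) := by
  have hX0 : 0 < Real.exp (-(2 * (μ1 + μ2))) * max |A| |B| := lt_of_lt_of_le one_pos hX
  rcases huv.eq_or_lt with huv | huv
  · subst huv
    simp only [Ico_self, sum_empty, norm_zero]
    positivity
  obtain ⟨n, rfl⟩ : ∃ n, v = u + (n + 1) := ⟨v - u - 1, by omega⟩
  rw [Finset.sum_Ico_eq_sum_range, show u + (n + 1) - u = n + 1 by omega]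
  -- the common facts for the two scales
  have key : ∀ (μ b δ : ℝ) (N : ℤ), 0 < μ → |δ| ≤ m →
      (∀ i : ℕ, u ≤ i → i < u + (n + 1) → ⌈b + i * δ⌉ = N) →
      Real.exp (-(3 / 2 * μ)) ≤ Real.exp (-μ * (N - b)) ∧ Real.exp (-μ * (N - b)) ≤ Real.exp (μ / 2) ∧
      (∀ i ∈ range (n + 1), ys μ (b + (u + i : ℕ) * δ) =
        Real.exp (-μ * (N - b)) * Real.exp (μ * δ * (u + i))) ∧
      (∀ t ∈ Set.Icc (u : ℝ) (u + n), Real.exp (μ * δ * t) ≤ Real.exp (μ / 2)) := by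
    intro μ b δ N hμ hδ hN
    have hu := hN u le_rfl (by omega)
    have hu1 : (N : ℝ) < b + u * δ + 1 := by rw [← hu]; exact Int.ceil_lt_add_one _
    have hu2 : b + u * δ ≤ N := by rw [← hu]; exact Int.le_ceil _
    have huM : (u : ℝ) + n ≤ M := by
      have : u + n ≤ M := by omega
      exact_mod_cast this
    have hu0 : (0 : ℝ) ≤ u := Nat.cast_nonneg u
    have hn0 : (0 : ℝ) ≤ n := Nat.cast_nonneg n
    have hδ0 := abs_nonneg δ
    have htd : ∀ t : ℝ, 0 ≤ t → t ≤ u + n → |t * δ| ≤ 1 / 2 := by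
      intro t ht ht2
      rw [abs_mul, abs_of_nonneg ht]
      calc t * |δ| ≤ M * m := mul_le_mul (ht2.trans huM) hδ hδ0 (by positivity)
        _ ≤ 1 / 2 := hMm
    have hud := abs_le.1 (htd u hu0 (by linarith))
    refine ⟨?_, ?_, ?_, ?_⟩
    · apply Real.exp_le_exp.2
      nlinarith
    · apply Real.exp_le_exp.2
      nlinarith
    · intro i hi
      unfold ys
      rw [hN (u + i) (by omega) (by have := mem_range.1 hi; omega), ← Real.exp_add]
      congr 1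
      push_cast
      ring
    · intro t ht
      apply Real.exp_le_exp.2
      have := (abs_le.1 (htd t (hu0.trans ht.1) ht.2)).2
      nlinarith
  obtain ⟨k11, k12, k13, k14⟩ := key μ1 b1 δ1 n1 hμ1 hδ1 hn1
  obtain ⟨k21, k22, k23, k24⟩ := key μ2 b2 δ2 n2 hμ2 hδ2 hn2
  have hE1 : 0 < Real.exp (-μ1 * (n1 - b1)) := Real.exp_pos _
  have hE2 : 0 < Real.exp (-μ2 * (n2 - b2)) := Real.exp_pos _
  have hsum : ∑ i ∈ range (n + 1), ex (A * ys μ1 (b1 + (u + i : ℕ) * δ1) + B * ys μ2 (b2 + (u + i : ℕ) * δ2)) =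
      ∑ i ∈ range (n + 1), ex (ph (A * Real.exp (-μ1 * (n1 - b1))) (B * Real.exp (-μ2 * (n2 - b2)))
        (μ1 * δ1) (μ2 * δ2) (u + i)) := by
    refine Finset.sum_congr rfl fun i hi => ?_
    rw [k13 i hi, k23 i hi]
    unfold ph
    congr 1
    ring
  rw [hsum]
  have hmax : Real.exp (-(2 * (μ1 + μ2))) * max |A| |B| ≤
      max |A * Real.exp (-μ1 * (n1 - b1))| |B * Real.exp (-μ2 * (n2 - b2))| := by
    rw [abs_mul, abs_mul, abs_of_pos hE1, abs_of_pos hE2, mul_max_of_nonneg _ _ (Real.exp_pos _).le]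
    apply max_le_max
    · rw [mul_comm]
      refine mul_le_mul_of_nonneg_left (le_trans (Real.exp_le_exp.2 ?_) k11) (abs_nonneg _)
      linarith
    · rw [mul_comm]
      refine mul_le_mul_of_nonneg_left (le_trans (Real.exp_le_exp.2 ?_) k21) (abs_nonneg _)
      linarith
  have hum : ((u : ℝ) + n) * m ≤ 1 := by
    have huM : (u : ℝ) + n ≤ M := by
      have : u + n ≤ M := by omega
      exact_mod_cast this
    nlinarith
  have hDb : ∀ t ∈ Set.Icc (u : ℝ) (u + n),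
      2 * Real.pi * |A * Real.exp (-μ1 * (n1 - b1)) * (Real.exp (μ1 * δ1 * t) * (μ1 * δ1)) +
        B * Real.exp (-μ2 * (n2 - b2)) * (Real.exp (μ2 * δ2 * t) * (μ2 * δ2))| ≤
      2 * Real.pi * (|A| * μ1 * Real.exp μ1 + |B| * μ2 * Real.exp μ2) * m := by
    intro t ht
    have e : ∀ (A μ δ Q t : ℝ), 0 < μ → |δ| ≤ m → 0 < Q → Q ≤ Real.exp (μ / 2) →
        Real.exp (μ * δ * t) ≤ Real.exp (μ / 2) →
        |A * Q * (Real.exp (μ * δ * t) * (μ * δ))| ≤ |A| * μ * Real.exp μ * m := by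
      intro A μ δ Q t hμ hδ hQ hQ2 ht
      rw [abs_mul, abs_mul, abs_mul, abs_mul, abs_of_pos hμ, abs_of_pos hQ, abs_of_pos (Real.exp_pos _)]
      have h5 : Real.exp μ = Real.exp (μ / 2) * Real.exp (μ / 2) := by
        rw [← Real.exp_add]; congr 1; ring
      calc |A| * Q * (Real.exp (μ * δ * t) * (μ * |δ|))
          ≤ |A| * Real.exp (μ / 2) * (Real.exp (μ / 2) * (μ * m)) := by gcongr
        _ = _ := by rw [h5]; ring
    have e1 := e A μ1 δ1 _ t hμ1 hδ1 hE1 k12 (k14 t ht)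
    have e2 := e B μ2 δ2 _ t hμ2 hδ2 hE2 k22 (k24 t ht)
    rw [mul_assoc (2 * Real.pi)]
    refine mul_le_mul_of_nonneg_left ?_ (by positivity)
    refine (abs_add_le _ _).trans ((add_le_add e1 e2).trans (le_of_eq ?_))
    ring
  refine (piece (c := c) (C0 := C0) hv hm hum ha1 ha2 hb1 hb2 hab hDb (hX.trans hmax)).trans ?_
  have hnM : (n : ℝ) ≤ M := by
    have : n ≤ M := by omega
    exact_mod_cast this
  have hr : (max |A * Real.exp (-μ1 * (n1 - b1))| |B * Real.exp (-μ2 * (n2 - b2))|) ^ (-(1 / 2) : ℝ) ≤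
      (Real.exp (-(2 * (μ1 + μ2))) * max |A| |B|) ^ (-(1 / 2) : ℝ) :=
    Real.rpow_le_rpow_of_nonpos hX0 hmax (by norm_num)
  gcongr

/-- the bound for a full window -/
theorem block {c C0 : ℝ} (hC0 : 0 ≤ C0)
    (hv : ∀ a b A B u v : ℝ, c ≤ |a| → |a| ≤ 1 / c → c ≤ |b| → |b| ≤ 1 / c → c ≤ |a - b| →
      0 ≤ u → u ≤ v → v ≤ 1 → 1 ≤ max |A| |B| →
      ‖∫ t in u..v, Complex.exp (2 * Real.pi * Complex.I *
        ((A * Real.exp (a * t) + B * Real.exp (b * t) : ℝ) : ℂ))‖ ≤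
      C0 * (max |A| |B|) ^ (-(1 / 2) : ℝ))
    {μ1 μ2 : ℝ} (hμ1 : 0 < μ1) (hμ2 : 0 < μ2) {A B δ1 δ2 m : ℝ} {M : ℕ} (hm : 0 < m)
    (hMm : M * m ≤ 1 / 2) (hδ1 : |δ1| ≤ m) (hδ2 : |δ2| ≤ m)
    (ha1 : c * m ≤ |μ1 * δ1|) (ha2 : |μ1 * δ1| ≤ m / c) (hb1 : c * m ≤ |μ2 * δ2|)
    (hb2 : |μ2 * δ2| ≤ m / c) (hab : c * m ≤ |μ1 * δ1 - μ2 * δ2|)
    (hX : 1 ≤ Real.exp (-(2 * (μ1 + μ2))) * max |A| |B|) (b1 b2 : ℝ) :
    ‖∑ i ∈ range M, ex (A * ys μ1 (b1 + i * δ1) + B * ys μ2 (b2 + i * δ2))‖ ≤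
      3 * (C0 * (Real.exp (-(2 * (μ1 + μ2))) * max |A| |B|) ^ (-(1 / 2) : ℝ) / m +
        (1 + M * (2 * Real.pi * (|A| * μ1 * Real.exp μ1 + |B| * μ2 * Real.exp μ2) * m))) := by
  have hM0 : (0 : ℝ) ≤ M := Nat.cast_nonneg M
  obtain ⟨s, hs, n1, n1', hn1, hn1'⟩ := ceil_split b1 δ1 M (by nlinarith [abs_nonneg δ1])
  obtain ⟨t, ht, n2, n2', hn2, hn2'⟩ := ceil_split b2 δ2 M (by nlinarith [abs_nonneg δ2])
  set f : ℕ → ℂ := fun i => ex (A * ys μ1 (b1 + i * δ1) + B * ys μ2 (b2 + i * δ2)) with hf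
  have P := fun n1 n2 u v h1 h2 h3 h4 => piece2 (c := c) hC0 hv hμ1 hμ2 hm hMm hδ1 hδ2 ha1 ha2 hb1 hb2
    hab hX b1 b2 n1 n2 u v h1 h2 h3 h4
  have hsplit : ∑ i ∈ range M, f i =
      (∑ i ∈ Ico 0 (min s t), f i + ∑ i ∈ Ico (min s t) (max s t), f i) +
        ∑ i ∈ Ico (max s t) M, f i := by
    rw [Finset.sum_Ico_consecutive f (Nat.zero_le _) (min_le_max), Finset.sum_Ico_consecutive f (Nat.zero_le _) (max_le hs ht),
      Finset.range_eq_Ico]
  rw [hsplit]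
  have hfirst := P n1 n2 0 (min s t) (Nat.zero_le _) ((min_le_left _ _).trans hs)
    (fun i _ hi => hn1 i (lt_of_lt_of_le hi (min_le_left _ _)))
    (fun i _ hi => hn2 i (lt_of_lt_of_le hi (min_le_right _ _)))
  have hlast := P n1' n2' (max s t) M (max_le hs ht) le_rfl
    (fun i hi1 hi => hn1' i ((le_max_left _ _).trans hi1) hi)
    (fun i hi1 hi => hn2' i ((le_max_right _ _).trans hi1) hi)
  have hmid : ‖∑ i ∈ Ico (min s t) (max s t), f i‖ ≤
      C0 * (Real.exp (-(2 * (μ1 + μ2))) * max |A| |B|) ^ (-(1 / 2) : ℝ) / m +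
        (1 + M * (2 * Real.pi * (|A| * μ1 * Real.exp μ1 + |B| * μ2 * Real.exp μ2) * m)) := by
    rcases le_total s t with hst | hst
    · rw [min_eq_left hst, max_eq_right hst]
      exact P n1' n2 s t hst ht (fun i hi1 hi => hn1' i hi1 (lt_of_lt_of_le hi ht))
        (fun i _ hi => hn2 i hi)
    · rw [min_eq_right hst, max_eq_left hst]
      exact P n1 n2' t s hst hs (fun i _ hi => hn1 i hi)
        (fun i hi1 hi => hn2' i hi1 (lt_of_lt_of_le hi hs))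
  refine (norm_add_le _ _).trans ?_
  have h3 := norm_add_le (∑ i ∈ Ico 0 (min s t), f i) (∑ i ∈ Ico (min s t) (max s t), f i)
  linarith

theorem ys_add_int (μ x : ℝ) (n : ℤ) : ys μ (x + n) = ys μ x := by
  unfold ys
  rw [Int.ceil_add_intCast]
  congr 1
  push_cast
  ring

end Pool.Agent.H7.FD
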