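import Pool.Agent.H7.FD.Pair

/-!
MP_1f2761, k = 2: the pair lemma, section (8.6) of P2761_est84.md, main statements.
-/

set_option autoImplicit false

open Finset MeasureTheory Pool.K2

namespace Pool.Agent.H7.FD

/-- the pair lemma -/
theorem pair (hvdc : VdcStmt) (th1 th2 : ℝ) (h1 : 0 < th1) (h2 : 0 < th2) (i1 : Irrational th1)
    (i2 : Irrational th2) (i12 : Irrational (th1 / th2)) :
    ∃ C : ℝ, 0 < C ∧ ∀ w : ℕ, 1 ≤ w → ∀ A B eps : ℝ, 0 < eps → ∃ T0 : ℕ, ∀ T : ℕ, T0 ≤ T → ∀ β1 β2 : ℝ,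
      ‖∑ j ∈ range T, ex (A * ys (Real.log 2 / th1) (β1 + j * w * th1) +
          B * ys (Real.log 2 / th2) (β2 + j * w * th2))‖ ≤
        (C * (max 1 (max |A| |B|)) ^ (-(1 / 2) : ℝ) + eps) * T := by
  have hl2 : 0 < Real.log 2 := Real.log_pos (by norm_num)
  set μ1 := Real.log 2 / th1 with hμ1d
  set μ2 := Real.log 2 / th2 with hμ2d
  have hμ1 : 0 < μ1 := by positivity
  have hμ2 : 0 < μ2 := by positivity
  have hirr : Irrational (μ1 / μ2) := by
    have : μ1 / μ2 = (th1 / th2)⁻¹ := by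
      rw [hμ1d, hμ2d]; field_simp
    rw [this]
    exact i12.inv
  obtain ⟨c, hc, hcl⟩ := claim th1 th2 μ1 μ2 i1 i2 hμ1 hμ2 hirr
  obtain ⟨c', hc', hc1, hc2, hc3, hc4, hc5⟩ : ∃ c' : ℝ, 0 < c' ∧ c' ≤ μ1 * c ∧ c' ≤ μ2 * c ∧ c' ≤ c ∧
      c' ≤ 1 / μ1 ∧ c' ≤ 1 / μ2 := by
    refine ⟨min (min (μ1 * c) (μ2 * c)) (min c (min (1 / μ1) (1 / μ2))), ?_, ?_, ?_, ?_, ?_, ?_⟩
    · have : 0 < 1 / μ1 := by positivity
      have : 0 < 1 / μ2 := by positivity
      have : 0 < μ1 * c := by positivity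
      have : 0 < μ2 * c := by positivity
      simp only [lt_min_iff]
      tauto
    · exact (min_le_left _ _).trans (min_le_left _ _)
    · exact (min_le_left _ _).trans (min_le_right _ _)
    · exact (min_le_right _ _).trans (min_le_left _ _)
    · exact (min_le_right _ _).trans ((min_le_right _ _).trans (min_le_left _ _))
    · exact (min_le_right _ _).trans ((min_le_right _ _).trans (min_le_right _ _))
  obtain ⟨C1, hC1⟩ := hvdc c' hc'
  set C0 := max C1 0 with hC0d
  have hC0 : 0 ≤ C0 := le_max_right _ _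
  have hv : ∀ a b A B u v : ℝ, c' ≤ |a| → |a| ≤ 1 / c' → c' ≤ |b| → |b| ≤ 1 / c' → c' ≤ |a - b| →
      0 ≤ u → u ≤ v → v ≤ 1 → 1 ≤ max |A| |B| →
      ‖∫ t in u..v, Complex.exp (2 * Real.pi * Complex.I *
        ((A * Real.exp (a * t) + B * Real.exp (b * t) : ℝ) : ℂ))‖ ≤
      C0 * (max |A| |B|) ^ (-(1 / 2) : ℝ) := by
    intro a b A B u v e1 e2 e3 e4 e5 e6 e7 e8 e9
    refine (hC1 a b A B u v e1 e2 e3 e4 e5 e6 e7 e8 e9).trans ?_
    have : 0 ≤ (max |A| |B|) ^ (-(1 / 2) : ℝ) := Real.rpow_nonneg (by positivity) _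
    exact mul_le_mul_of_nonneg_right (le_max_left _ _) this
  set Λ := Real.exp (μ1 + μ2) with hΛd
  have hΛ : 0 < Λ := Real.exp_pos _
  have hκ : Real.exp (-(2 * (μ1 + μ2))) = Λ ^ (-2 : ℝ) := by
    rw [hΛd, ← Real.exp_mul]; congr 1; ring
  refine ⟨(1 + 12 * C0) * Λ, by positivity, ?_⟩
  intro w hw A B eps heps
  set X := max |A| |B| with hXd
  have hX0 : 0 ≤ X := le_max_of_le_left (abs_nonneg _)
  have hw0 : (0 : ℝ) < w := by exact_mod_cast hw
  by_cases hX : 1 ≤ Real.exp (-(2 * (μ1 + μ2))) * X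
  · -- the main case
    have hXpos : 0 < X := by
      by_contra h
      have : X = 0 := le_antisymm (not_lt.1 h) hX0
      rw [this] at hX
      simp at hX
      linarith
    have hX1 : 1 ≤ X := by
      have : Real.exp (-(2 * (μ1 + μ2))) ≤ 1 := by
        apply Real.exp_le_one_iff.2
        linarith
      nlinarith
    have hmaxX : max 1 X = X := max_eq_right hX1
    set E := 2 * Real.pi * (|A| * μ1 * Real.exp μ1 + |B| * μ2 * Real.exp μ2) with hEd
    have hE : 0 ≤ E := by positivity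
    obtain ⟨ε', hε', hε1, hε2⟩ : ∃ ε' : ℝ, 0 < ε' ∧ ε' ≤ 1 / 2 ∧ (12 + 3 * E) * ε' ≤ eps / 2 := by
      refine ⟨min (1 / 2) (eps / (2 * (12 + 3 * E))), by positivity, min_le_left _ _, ?_⟩
      have h5 : min (1 / 2) (eps / (2 * (12 + 3 * E))) ≤ eps / (2 * (12 + 3 * E)) := min_le_right _ _
      calc (12 + 3 * E) * min (1 / 2) (eps / (2 * (12 + 3 * E)))
          ≤ (12 + 3 * E) * (eps / (2 * (12 + 3 * E))) := by gcongr
        _ = eps / 2 := by field_simp
    obtain ⟨K, hK, I1, I2, m0, hm0, hm0e, q1, q2, q3, q4, q5⟩ := hcl (ε' / w) (by positivity)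
    set m := w * m0 with hmd
    have hm : 0 < m := by positivity
    have hmε : m ≤ ε' := by
      rw [hmd, mul_comm]
      exact ((lt_div_iff₀ hw0).1 hm0e).le
    set δ1 := w * (K * th1 - I1) with hδ1d
    set δ2 := w * (K * th2 - I2) with hδ2d
    have a1 : |δ1| = w * |K * th1 - I1| := by rw [hδ1d, abs_mul, abs_of_pos hw0]
    have a2 : |δ2| = w * |K * th2 - I2| := by rw [hδ2d, abs_mul, abs_of_pos hw0]
    have a3 : |μ1 * δ1 - μ2 * δ2| = w * |μ1 * (K * th1 - I1) - μ2 * (K * th2 - I2)| := by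
      rw [hδ1d, hδ2d, show μ1 * (w * (K * th1 - I1)) - μ2 * (w * (K * th2 - I2)) =
        w * (μ1 * (K * th1 - I1) - μ2 * (K * th2 - I2)) by ring, abs_mul, abs_of_pos hw0]
    have b1 : |δ1| ≤ m := by rw [a1, hmd]; gcongr
    have b2 : |δ2| ≤ m := by rw [a2, hmd]; gcongr
    have b3 : c * m ≤ |δ1| := by
      rw [a1, hmd, show c * (w * m0) = w * (c * m0) by ring]; gcongr
    have b4 : c * m ≤ |δ2| := by
      rw [a2, hmd, show c * (w * m0) = w * (c * m0) by ring]; gcongr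
    have b5 : c' * m ≤ |μ1 * δ1 - μ2 * δ2| := by
      rw [a3, hmd, show c' * (w * m0) = w * (c' * m0) by ring]
      refine mul_le_mul_of_nonneg_left (le_trans ?_ q5) hw0.le
      gcongr
    have f1 : c' * m ≤ |μ1 * δ1| := by
      rw [abs_mul, abs_of_pos hμ1]
      calc c' * m ≤ μ1 * c * m := by gcongr
        _ = μ1 * (c * m) := by ring
        _ ≤ _ := by gcongr
    have f2 : |μ1 * δ1| ≤ m / c' := by
      rw [abs_mul, abs_of_pos hμ1, le_div_iff₀ hc']
      calc μ1 * |δ1| * c' ≤ μ1 * m * (1 / μ1) := by gcongr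
        _ = m := by field_simp
    have f3 : c' * m ≤ |μ2 * δ2| := by
      rw [abs_mul, abs_of_pos hμ2]
      calc c' * m ≤ μ2 * c * m := by gcongr
        _ = μ2 * (c * m) := by ring
        _ ≤ _ := by gcongr
    have f4 : |μ2 * δ2| ≤ m / c' := by
      rw [abs_mul, abs_of_pos hμ2, le_div_iff₀ hc']
      calc μ2 * |δ2| * c' ≤ μ2 * m * (1 / μ2) := by gcongr
        _ = m := by field_simp
    set M := ⌊1 / (2 * m)⌋₊ with hMd
    have hm2 : m ≤ 1 / 2 := hmε.trans hε1
    have hbig : 1 ≤ 1 / (2 * m) := by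
      rw [le_div_iff₀ (by positivity)]; linarith
    have hM1 : 1 ≤ M := Nat.le_floor (by exact_mod_cast hbig)
    have hM0 : (0 : ℝ) < M := by exact_mod_cast hM1
    have hMle : (M : ℝ) ≤ 1 / (2 * m) := Nat.floor_le (by positivity)
    have hMm : M * m ≤ 1 / 2 := by
      calc M * m ≤ 1 / (2 * m) * m := by gcongr
        _ = 1 / 2 := by field_simp
    have hMge : 1 / 4 ≤ M * m := by
      have h6 : 1 / (2 * m) < M + 1 := Nat.lt_floor_add_one _
      have h7 : (1 : ℝ) ≤ M := by exact_mod_cast hM1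
      have h8 : 1 / (2 * m) ≤ 2 * M := by linarith
      rw [div_le_iff₀ (by positivity)] at h8
      linarith
    obtain ⟨T0, hT0⟩ := exists_nat_ge (2 * (2 * (M * K)) / eps)
    refine ⟨T0, fun T hT β1 β2 => ?_⟩
    have hTT : 2 * ((M : ℝ) * K) ≤ eps / 2 * T := by
      have h9 : 2 * (2 * (M * K)) / eps ≤ (T : ℝ) := hT0.trans (by exact_mod_cast hT)
      rw [div_le_iff₀ heps] at h9
      linarith
    have hmain := avg_shift (fun j : ℕ => ex (A * ys μ1 (β1 + j * w * th1) + B * ys μ2 (β2 + j * w * th2)))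
      (fun j => (norm_ex _).le) T K M hM1
      (D := 3 * (C0 * (Real.exp (-(2 * (μ1 + μ2))) * X) ^ (-(1 / 2) : ℝ) / m + (1 + M * (E * m)))) ?_
    · refine hmain.trans ?_
      have hpow : (Real.exp (-(2 * (μ1 + μ2))) * X) ^ (-(1 / 2) : ℝ) = Λ * X ^ (-(1 / 2) : ℝ) := by
        rw [Real.mul_rpow (Real.exp_pos _).le hX0, hκ, ← Real.rpow_mul hΛ.le]
        norm_num
      rw [hpow, hmaxX]
      have hY : 0 ≤ X ^ (-(1 / 2) : ℝ) := Real.rpow_nonneg hX0 _
      set Y := X ^ (-(1 / 2) : ℝ) with hYd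
      have hdiv : 3 * (C0 * (Λ * Y) / m + (1 + M * (E * m))) / M ≤ 12 * C0 * Λ * Y + (12 + 3 * E) * m := by
        rw [div_le_iff₀ hM0]
        have g1 : C0 * (Λ * Y) / m ≤ 4 * (C0 * Λ * Y) * M := by
          rw [div_le_iff₀ hm]
          calc C0 * (Λ * Y) = 4 * (C0 * Λ * Y) * (1 / 4) := by ring
            _ ≤ 4 * (C0 * Λ * Y) * (M * m) := by gcongr
            _ = _ := by ring
        have g2 : 1 ≤ 4 * m * M := by linarith
        calc 3 * (C0 * (Λ * Y) / m + (1 + M * (E * m)))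
            ≤ 3 * (4 * (C0 * Λ * Y) * M + (4 * m * M + M * (E * m))) := by gcongr
          _ = _ := by ring
      have hT0' : (0 : ℝ) ≤ T := Nat.cast_nonneg T
      have hem : (12 + 3 * E) * m ≤ eps / 2 := le_trans (by gcongr) hε2
      have g3 : 12 * C0 * Λ * Y ≤ (1 + 12 * C0) * Λ * Y := by
        gcongr
        linarith
      calc 3 * (C0 * (Λ * Y) / m + (1 + M * (E * m))) / M * T + 2 * (M * K)
          ≤ (12 * C0 * Λ * Y + (12 + 3 * E) * m) * T + eps / 2 * T := by gcongr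
        _ ≤ ((1 + 12 * C0) * Λ * Y + eps / 2) * T + eps / 2 * T := by gcongr
        _ = _ := by ring
    · intro j
      have hterm : ∀ i : ℕ, ex (A * ys μ1 (β1 + (j + i * K : ℕ) * w * th1) +
          B * ys μ2 (β2 + (j + i * K : ℕ) * w * th2)) =
          ex (A * ys μ1 (β1 + j * w * th1 + i * δ1) + B * ys μ2 (β2 + j * w * th2 + i * δ2)) := by
        intro i
        have s1 : β1 + (j + i * K : ℕ) * w * th1 = β1 + j * w * th1 + i * δ1 + ((i * w * I1 : ℤ) : ℝ) := by
          rw [hδ1d]; push_cast; ring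
        have s2 : β2 + (j + i * K : ℕ) * w * th2 = β2 + j * w * th2 + i * δ2 + ((i * w * I2 : ℤ) : ℝ) := by
          rw [hδ2d]; push_cast; ring
        rw [s1, s2, ys_add_int, ys_add_int]
      simp only [hterm]
      exact block (c := c') hC0 hv hμ1 hμ2 hm hMm b1 b2 f1 f2 f3 f4 b5 hX _ _
  · -- trivial case
    push Not at hX
    refine ⟨0, fun T _ β1 β2 => ?_⟩
    have htriv : ‖∑ j ∈ range T, ex (A * ys μ1 (β1 + j * w * th1) + B * ys μ2 (β2 + j * w * th2))‖ ≤ T := by
      refine (norm_sum_le _ _).trans ?_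
      simp [norm_ex]
    refine htriv.trans ?_
    have hge : 1 ≤ Λ * (max 1 X) ^ (-(1 / 2) : ℝ) := by
      have hXle : max 1 X ≤ Λ ^ (2 : ℝ) := by
        rw [hκ, Real.rpow_neg hΛ.le] at hX
        have hp : 0 < Λ ^ (2 : ℝ) := Real.rpow_pos_of_pos hΛ _
        apply max_le
        · apply Real.one_le_rpow _ (by norm_num)
          rw [hΛd]
          apply Real.one_le_exp
          positivity
        · rw [inv_mul_lt_iff₀ hp] at hX
          linarith
      have h10 : (Λ ^ (2 : ℝ)) ^ (-(1 / 2) : ℝ) ≤ (max 1 X) ^ (-(1 / 2) : ℝ) :=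
        Real.rpow_le_rpow_of_nonpos (lt_of_lt_of_le one_pos (le_max_left _ _)) hXle (by norm_num)
      rw [← Real.rpow_mul hΛ.le] at h10
      norm_num at h10
      rw [Real.rpow_neg_one] at h10
      have := mul_le_mul_of_nonneg_left h10 hΛ.le
      rw [mul_inv_cancel₀ hΛ.ne'] at this
      norm_num
      exact this
    have hT0' : (0 : ℝ) ≤ T := Nat.cast_nonneg T
    have hone : 1 ≤ (1 + 12 * C0) * Λ * (max 1 X) ^ (-(1 / 2) : ℝ) + eps := by
      have : 0 ≤ 12 * C0 * (Λ * (max 1 X) ^ (-(1 / 2) : ℝ)) := by positivity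
      nlinarith
    nlinarith

/-- logarithms of coprime integers are incommensurable -/
theorem irrational_log_div {a b : ℕ} (ha : 1 < a) (hb : 1 < b) (hab : Nat.Coprime a b) :
    Irrational (Real.log a / Real.log b) := by
  have hla : 0 < Real.log a := Real.log_pos (by exact_mod_cast ha)
  have hlb : 0 < Real.log b := Real.log_pos (by exact_mod_cast hb)
  rintro ⟨r, hr⟩
  have hr0 : (0 : ℝ) < r := by rw [hr]; positivity
  have hr0' : 0 < r := by exact_mod_cast hr0
  have hnum : 0 < r.num := Rat.num_pos.2 hr0'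
  obtain ⟨n, hn⟩ : ∃ n : ℕ, r.num = n := ⟨r.num.toNat, (Int.toNat_of_nonneg hnum.le).symm⟩
  have hn0 : 0 < n := by omega
  have hd0 : (0 : ℝ) < r.den := by exact_mod_cast r.den_pos
  have hrr : (r : ℝ) = n / r.den := by
    rw [Rat.cast_def r, hn]
    push_cast
    rfl
  rw [hrr, div_eq_div_iff hd0.ne' hlb.ne'] at hr
  have hpow : (a : ℝ) ^ r.den = (b : ℝ) ^ n := by
    apply Real.log_injOn_pos
    · exact Set.mem_Ioi.2 (by positivity)
    · exact Set.mem_Ioi.2 (by positivity)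
    · rw [Real.log_pow, Real.log_pow]; linarith
  have hpow' : a ^ r.den = b ^ n := by exact_mod_cast hpow
  have hcop : Nat.Coprime (a ^ r.den) (b ^ n) := Nat.Coprime.pow _ _ hab
  rw [← hpow', Nat.coprime_self] at hcop
  have := Nat.one_lt_pow r.den_pos.ne' ha
  omega

open Pool.Agent.H24.FD in
theorem yy_eq (q J : ℕ) (hq : 2 ≤ q) :
    yy q J = ys (Real.log q) (J * (Real.log 2 / Real.log q)) := by
  have hq1 : (1 : ℝ) < q := by exact_mod_cast hq
  have hlq : 0 < Real.log q := Real.log_pos hq1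
  have hl2 : 0 < Real.log 2 := Real.log_pos (by norm_num)
  have hx : (J : ℝ) * (Real.log 2 / Real.log q) = Real.logb q ((2 ^ J : ℕ) : ℝ) := by
    unfold Real.logb
    push_cast
    rw [Real.log_pow]
    ring
  have hII : (II q J : ℕ) = ⌈(J : ℝ) * (Real.log 2 / Real.log q)⌉₊ := by
    unfold II
    rw [hx, Real.natCeil_logb_natCast]
  have hceil : (⌈(J : ℝ) * (Real.log 2 / Real.log q)⌉ : ℝ) = (II q J : ℝ) := by
    rw [hII]
    have h0 : (0 : ℝ) ≤ (J : ℝ) * (Real.log 2 / Real.log q) := by positivity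
    rw [natCast_ceil_eq_intCast_ceil h0]
  unfold ys yy
  rw [hceil, show -Real.log q * ((II q J : ℝ) - J * (Real.log 2 / Real.log q)) =
    J * Real.log 2 - II q J * Real.log q by field_simp; ring, Real.exp_sub, ← Real.log_pow, ← Real.log_pow,
    Real.exp_log (by positivity), Real.exp_log (by positivity)]

open Pool.Agent.H24.FD in
/-- the pair lemma for `yy` -/
theorem pair_yy (hvdc : VdcStmt) (q p : ℕ) (hq : 2 < q) (hp : 2 < p) (hq2 : Nat.Coprime 2 q)
    (hp2 : Nat.Coprime 2 p) (hqp : Nat.Coprime q p) :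
    ∃ C : ℝ, 0 < C ∧ ∀ w : ℕ, 1 ≤ w → ∀ A B eps : ℝ, 0 < eps → ∃ T0 : ℕ, ∀ T : ℕ, T0 ≤ T → ∀ J J' : ℕ,
      ‖∑ j ∈ range T, ex (A * yy q (J + j * w) + B * yy p (J' + j * w))‖ ≤
        (C * (max 1 (max |A| |B|)) ^ (-(1 / 2) : ℝ) + eps) * T := by
  have hl2 : 0 < Real.log 2 := Real.log_pos (by norm_num)
  have hlq : 0 < Real.log q := Real.log_pos (by exact_mod_cast (by omega : 1 < q))
  have hlp : 0 < Real.log p := Real.log_pos (by exact_mod_cast (by omega : 1 < p))
  have i1 : Irrational (Real.log 2 / Real.log q) := by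
    have := irrational_log_div (a := 2) (b := q) (by norm_num) (by omega) hq2
    exact_mod_cast this
  have i2 : Irrational (Real.log 2 / Real.log p) := by
    have := irrational_log_div (a := 2) (b := p) (by norm_num) (by omega) hp2
    exact_mod_cast this
  have i3 : Irrational (Real.log 2 / Real.log q / (Real.log 2 / Real.log p)) := by
    have := irrational_log_div (a := p) (b := q) (by omega) (by omega) hqp.symm
    rwa [show Real.log 2 / Real.log q / (Real.log 2 / Real.log p) = Real.log p / Real.log q by field_simp]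
  obtain ⟨C, hC, hmain⟩ := pair hvdc _ _ (by positivity) (by positivity) i1 i2 i3
  refine ⟨C, hC, fun w hw A B eps heps => ?_⟩
  obtain ⟨T0, hT0⟩ := hmain w hw A B eps heps
  refine ⟨T0, fun T hT J J' => ?_⟩
  refine le_trans (le_of_eq ?_) (hT0 T hT (J * (Real.log 2 / Real.log q)) (J' * (Real.log 2 / Real.log p)))
  congr 1
  refine Finset.sum_congr rfl fun j _ => ?_
  rw [yy_eq q _ (by omega), yy_eq p _ (by omega)]
  rw [show Real.log 2 / (Real.log 2 / Real.log q) = Real.log q by field_simp,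
    show Real.log 2 / (Real.log 2 / Real.log p) = Real.log p by field_simp]
  congr 3
  · congr 1
    push_cast
    ring
  · congr 1
    push_cast
    ring

end Pool.Agent.H7.FD
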